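import Pool.Agent.H29.ILE2

set_option autoImplicit false

namespace Pool.Agent.Results.MP_f65c66_pr.Dense

open MeasureTheory Set Filter
open scoped ENNReal

/-- Mass transport principle for a random rooted structure on the vertex set `ℕ`; `act σ` relabels
the vertices along the permutation `σ`. -/
def MTP {M : Type} [MeasurableSpace M] (act : Equiv.Perm ℕ → M → M) (P : Measure (M × ℕ)) : Prop :=
  ∀ F : M × ℕ × ℕ → ℝ≥0∞, Measurable F →
    (∀ (σ : Equiv.Perm ℕ) (m : M) (x y : ℕ), F (act σ m, x, y) = F (m, σ x, σ y)) →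
    ∫⁻ p, ∑' v, F (p.1, p.2, v) ∂P = ∫⁻ p, ∑' v, F (p.1, v, p.2) ∂P

/-- `L` is a line ensemble of `G`. -/
def IsLineEnsemble (G L : SimpleGraph ℕ) : Prop :=
  L ≤ G ∧ ∀ v, (L.neighborSet v).encard = 0 ∨ (L.neighborSet v).encard = 2

open Pool.Agent.H29.ILE ProbabilityTheory

lemma mcnt {r : Gr → ℕ → ℕ → Prop} (hr : ∀ a b, Measurable fun G => r G a b) :
    Measurable fun p : Gr × ℕ => (({v | r p.1 p.2 v}.encard : ℕ∞) : ℝ≥0∞) :=
  measurable_from_prod_countable_left fun x => (measurable_of_countable ENat.toENNReal).comp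
    (measurable_encard.comp (measurable_set_iff.2 fun v => hr x v))

lemma mtp_rel {P : Measure (Gr × ℕ)} (h : MTP (fun σ G => G.comap σ) P)
    {r : Gr → ℕ → ℕ → Prop} (hr : ∀ a b, Measurable fun G => r G a b)
    (hi : ∀ (σ : Equiv.Perm ℕ) G a b, r (G.comap σ) a b ↔ r G (σ a) (σ b)) :
    ∫⁻ p, (({v | r p.1 p.2 v}.encard : ℕ∞) : ℝ≥0∞) ∂P
      = ∫⁻ p, (({v | r p.1 v p.2}.encard : ℕ∞) : ℝ≥0∞) ∂P := by
  have := h ({q : Gr × ℕ × ℕ | r q.1 q.2.1 q.2.2}.indicator 1)
    (measurable_one.indicator (measurableSet_setOfPred.2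
      (measurable_from_prod_countable_left fun x => hr x.1 x.2)))
    (fun σ G x y => by
      by_cases e : r G (σ x) (σ y)
      · rw [indicator_of_mem (by exact (hi σ G x y).2 e), indicator_of_mem (by exact e)]; rfl
      · rw [indicator_of_notMem (by exact mt (hi σ G x y).1 e),
          indicator_of_notMem (by exact e)])
  simp only [← ENNReal.tsum_set_one, tsum_subtype _ (fun _ : ℕ => (1 : ℝ≥0∞))]
  exact this

lemma everywhere {P : Measure (Gr × ℕ)} (h : MTP (fun σ G => G.comap σ) P)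
    {r : Gr → ℕ → Prop} (hr : ∀ a, Measurable fun G => r G a)
    (hi : ∀ (σ : Equiv.Perm ℕ) G a, r (G.comap σ) a ↔ r G (σ a))
    (h0 : ∀ᵐ p ∂P, ¬ r p.1 p.2) : ∀ᵐ p ∂P, ∀ v, ¬ r p.1 v := by
  have e := mtp_rel h (r := fun G a _ => r G a) (fun a _ => hr a) fun σ G a _ => hi σ G a
  rw [lintegral_congr_ae (g := fun _ => 0) (h0.mono fun p hp => by simp [hp]), lintegral_zero,
    eq_comm, lintegral_eq_zero_iff (mcnt (r := fun G _ b => r G b) fun _ b => hr b)] at e
  exact e.mono fun p hp v => by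
    have : {v | r p.1 v} = ∅ := by simpa using hp
    exact eq_empty_iff_forall_notMem.1 this v

noncomputable def ν : Measure (ℕ → ℝ) := Measure.infinitePi fun _ => gaussianReal 0 1

instance : IsProbabilityMeasure ν := by unfold ν; infer_instance

lemma ν_inj : ∀ᵐ U ∂ν, Function.Injective U := by
  have := nullSingletonClass_gaussianReal (μ := 0) (v := 1) one_ne_zero
  have : ∀ i j : ℕ, ∀ᵐ U ∂ν, i ≠ j → U i ≠ U j := fun i j => by
    by_cases h : i = j
    · simp [h]
    · have e := Measure.infinitePi_map_eval_prod (P := fun _ : ℕ => gaussianReal 0 1) h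
      have m : MeasurableSet {q : ℝ × ℝ | q.1 = q.2} := measurableSet_eq_fun (by fun_prop)
        (by fun_prop)
      have z : ((gaussianReal 0 1).prod (gaussianReal 0 1)) {q : ℝ × ℝ | q.1 = q.2} = 0 := by
        rw [Measure.prod_apply m]; simp
      rw [← e, Measure.map_apply (by fun_prop) m] at z
      filter_upwards [measure_eq_zero_iff_ae_notMem.1 z] with U hU _ using hU
  filter_upwards [ae_all_iff.2 fun i => ae_all_iff.2 fun j => this i j] with U hU i j e
  by_contra hc; exact hU i j hc e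

lemma ν_perm (σ : Equiv.Perm ℕ) : MeasurePreserving (fun U : ℕ → ℝ => U ∘ σ) ν ν :=
  ⟨by fun_prop, Measure.map_infinitePi_infinitePi_of_inj (P := fun _ : ℕ => gaussianReal 0 1)
    σ.injective⟩

def Φ (d : ℕ) (ω : Fin d) (q : (Gr × ℕ) × (ℕ → ℝ)) : (Gr × Gr) × ℕ :=
  ((q.1.1, L d q.1.1 q.2 (q.1.2, ω)), q.1.2)

lemma mL' {X : Type} [MeasurableSpace X] (d : ℕ) (ω : Fin d) {g : X → Gr} {u : X → ℕ → ℝ}
    {x : X → ℕ} (hg : Measurable g) (hu : Measurable u) (hx : Measurable x) :
    Measurable fun a => L d (g a) (u a) (x a, ω) :=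
  (measurable_from_prod_countable_left (f := fun q : (Gr × (ℕ → ℝ)) × ℕ =>
    L d q.1.1 q.1.2 (q.2, ω)) fun y => mL d (y, ω)).comp ((hg.prodMk hu).prodMk hx)

lemma mΦ (d : ℕ) (ω : Fin d) : Measurable (Φ d ω) :=
  (Measurable.prodMk (by fun_prop) (mL' d ω (by fun_prop) (by fun_prop) (by fun_prop))).prodMk
    (by fun_prop)

noncomputable def Q (d : ℕ) (P : Measure (Gr × ℕ)) : Measure ((Gr × Gr) × ℕ) :=
  (d : ℝ≥0∞)⁻¹ • ∑ ω, (P.prod ν).map (Φ d ω)

lemma lint_Q (d : ℕ) (P : Measure (Gr × ℕ)) {Ψ : (Gr × Gr) × ℕ → ℝ≥0∞} (h : Measurable Ψ) :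
    ∫⁻ q, Ψ q ∂Q d P = (d : ℝ≥0∞)⁻¹ * ∫⁻ p, ∫⁻ U, ∑ ω, Ψ (Φ d ω (p, U)) ∂ν ∂P := by
  rw [Q, lintegral_smul_measure, lintegral_finsetSum_measure, smul_eq_mul]
  simp only [lintegral_map h (mΦ d _)]
  rw [← lintegral_finsetSum (f := fun ω q => Ψ (Φ d ω q)) _ fun ω _ => h.comp (mΦ d ω),
    lintegral_prod]
  exact (Finset.measurable_sum _ fun ω _ => h.comp (mΦ d ω)).aemeasurable

lemma Q_mtp (d : ℕ) {P : Measure (Gr × ℕ)} (h : MTP (fun σ G => G.comap σ) P)
    (ht : ∀ᵐ p ∂P, p.1.IsTree) :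
    MTP (fun σ (m : Gr × Gr) => (m.1.comap σ, m.2.comap σ)) (Q d P) := by
  intro F mF iF
  have m0 : ∀ (ω : Fin d), Measurable fun q : (Gr × ℕ × ℕ) × (ℕ → ℝ) =>
      F ((q.1.1, L d q.1.1 q.2 (q.1.2.1, ω)), q.1.2) := fun ω => mF.comp
    (Measurable.prodMk (Measurable.prodMk (by fun_prop)
      (mL' d ω (by fun_prop) (by fun_prop) (by fun_prop))) (by fun_prop))
  have m1 : ∀ (G : Gr) (x : ℕ) (y : ℕ × ℕ), Measurable fun U : ℕ → ℝ =>
      ∑ ω, F ((G, L d G U (x, ω)), y) := fun G x y => Finset.measurable_sum _ fun ω _ => mF.comp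
    (Measurable.prodMk (Measurable.prodMk (by fun_prop)
      (mL' d ω (by fun_prop) (by fun_prop) (by fun_prop))) (by fun_prop))
  have key := h (fun q => ∫⁻ U, ∑ ω, F ((q.1, L d q.1 U (q.2.1, ω)), q.2) ∂ν)
    (Finset.measurable_sum _ fun ω _ => m0 ω).lintegral_prod_right' (fun σ G x y => by
      simp only
      rw [← (ν_perm σ).lintegral_comp (m1 _ _ _)]
      simp only [L_comap]
      exact lintegral_congr fun U => Finset.sum_congr rfl fun ω _ => iF σ (G, _) x y)
  rw [lint_Q d P (Ψ := fun p => ∑' v, F (p.1, p.2, v))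
      (Measurable.tsum fun v => mF.comp (by fun_prop)),
    lint_Q d P (Ψ := fun p => ∑' v, F (p.1, v, p.2))
      (Measurable.tsum fun v => mF.comp (by fun_prop))]
  congr 1
  simp only [← lintegral_tsum fun v => (m1 _ _ _).aemeasurable,
    Summable.tsum_finsetSum fun _ _ => ENNReal.summable] at key
  refine key.trans (lintegral_congr_ae (ht.mono fun p hp => lintegral_congr fun U => ?_))
  simp only [Φ, ← Summable.tsum_finsetSum fun _ _ => ENNReal.summable]
  refine tsum_congr fun v => ?_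
  obtain ⟨e, he⟩ := root_change hp U v p.2
  refine Eq.trans (Finset.sum_congr rfl fun ω _ => ?_)
    (Equiv.sum_comp e fun ω => F ((p.1, L d p.1 U (p.2, ω)), v, p.2))
  rw [← he]

theorem result : ∀ (d : ℕ), 2 ≤ d → ∀ (P : Measure (SimpleGraph ℕ × ℕ)), IsProbabilityMeasure P →
    MTP (fun σ G => G.comap σ) P → (∀ᵐ p ∂P, p.1.IsTree) →
    (∀ᵐ p ∂P, (p.1.neighborSet p.2).encard ≤ (d : ℕ∞)) →
    ∃ Q : Measure ((SimpleGraph ℕ × SimpleGraph ℕ) × ℕ), IsProbabilityMeasure Q ∧
      Q.map (fun q => (q.1.1, q.2)) = P ∧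
      MTP (fun σ m => (m.1.comap σ, m.2.comap σ)) Q ∧
      (∀ᵐ q ∂Q, IsLineEnsemble q.1.1 q.1.2) ∧
      3 * ((∫ p, ((p.1.neighborSet p.2).ncard : ℝ) ∂P) / d) - 2
        ≤ Q.real {q | ∃ v, q.1.2.Adj q.2 v} := by
  intro d d2 P hP h ht hd
  have d0 : (d : ℝ≥0∞) ≠ 0 := by simp; omega
  have hd' : ∀ᵐ p ∂P, ∀ v, (p.1.neighborSet v).encard ≤ (d : ℕ∞) := by
    have := everywhere h (r := fun G a => ¬ (G.neighborSet a).encard ≤ d)
      (fun a => ((measurable_of_countable fun n : ℕ∞ => n ≤ d).comp (measurable_encard.comp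
        (measurable_set_iff.2 fun z => madj a z))).not)
      (fun σ G a => by rw [deg_comap]) (by simpa only [not_not] using hd)
    simpa only [not_not] using this
  have mp : Measurable fun q : (Gr × Gr) × ℕ => (q.1.1, q.2) := by fun_prop
  have e : (Q d P).map (fun q => (q.1.1, q.2)) = P := by
    ext s hs
    rw [Measure.map_apply mp hs, ← lintegral_indicator_one (mp hs),
      lint_Q d P (measurable_one.indicator (mp hs)), ← lintegral_indicator_one hs,
      ← lintegral_const_mul' _ _ (by simpa using d0)]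
    refine lintegral_congr fun p => ?_
    by_cases hp : p ∈ s <;> simp [indicator, Φ, hp, ENNReal.inv_mul_cancel d0]
  have hQ : IsProbabilityMeasure (Q d P) := ⟨by
    have := congrArg (fun m : Measure (Gr × ℕ) => m univ) e
    simpa [Measure.map_apply mp] using this⟩
  refine ⟨Q d P, hQ, e, Q_mtp d h ht, ?_, ?_⟩
  · have ms : MeasurableSet {q : (Gr × Gr) × ℕ | ¬ IsLineEnsemble q.1.1 q.1.2} := by
      refine measurableSet_setOfPred.2 (Measurable.not (Measurable.and ?_ (.forall fun v => ?_)))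
      · exact .forall fun a => .forall fun b => .imp (by fun_prop) (by fun_prop)
      · exact (measurable_of_countable fun n : ℕ∞ => n = 0 ∨ n = 2).comp (measurable_encard.comp
          (measurable_set_iff.2 fun z => (madj v z).comp (by fun_prop)))
    rw [ae_iff, ← lintegral_indicator_one ms, lint_Q d P (measurable_one.indicator ms),
      lintegral_congr_ae (g := fun _ => 0), lintegral_zero, mul_zero]
    filter_upwards [ht, hd'] with p h1 h2
    rw [lintegral_congr_ae (g := fun _ => 0), lintegral_zero]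
    filter_upwards [ν_inj] with U hU
    refine Finset.sum_eq_zero fun ω _ => indicator_of_notMem (not_not.2 ⟨fun a b hab => hab.1.1,
      fun v => ?_⟩) _
    obtain ⟨s, -, hs⟩ := L_deg h1 h2 hU p.2 ω
    simp only [Φ, hs]
    split_ifs <;> simp
  have ms : MeasurableSet {q : (Gr × Gr) × ℕ | ∃ v, q.1.2.Adj q.2 v} :=
    measurableSet_setOfPred.2 (measurable_from_prod_countable_left fun x =>
      .exists fun v => (madj x v).comp measurable_snd)
  set K := ∫⁻ p, (({v | core p.1 p.2 v}.encard : ℕ∞) : ℝ≥0∞) ∂P with hK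
  set A := ∫⁻ p, (({v | p.1.Adj p.2 v}.encard : ℕ∞) : ℝ≥0∞) ∂P with hA
  set O := ∫⁻ p, (({v | out p.1 p.2 v}.encard : ℕ∞) : ℝ≥0∞) ∂P with hO
  have io : O = _ := mtp_rel h mout fun σ G a b => out_comap G σ a b
  have eK : Q d P {q | ∃ v, q.1.2.Adj q.2 v} = (d : ℝ≥0∞)⁻¹ * K := by
    rw [← lintegral_indicator_one ms, lint_Q d P (measurable_one.indicator ms)]
    congr 1
    refine lintegral_congr_ae ?_
    filter_upwards [ht, hd'] with p h1 h2
    have sb : {u | core p.1 p.2 u} ⊆ p.1.neighborSet p.2 := fun u hu => hu.1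
    have hc := (finite_of_encard_le_coe (h2 p.2)).subset sb
    have k1 : kk p.1 p.2 ≤ d := by
      have := (encard_le_encard sb).trans (h2 p.2)
      rwa [← hc.cast_ncard_eq, Nat.cast_le] at this
    rw [lintegral_congr_ae (g := fun _ => (kk p.1 p.2 : ℝ≥0∞)), ← hc.cast_ncard_eq]
    · simp [kk]
    filter_upwards [ν_inj] with U hU
    have : ∀ ω : Fin d, {q : (Gr × Gr) × ℕ | ∃ v, q.1.2.Adj q.2 v}.indicator 1 (Φ d ω (p, U))
        = if (ω : ℕ) < kk p.1 p.2 then (1 : ℝ≥0∞) else 0 := fun ω => by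
      obtain ⟨s, rfl, hs⟩ := L_deg h1 h2 hU p.2 ω
      have := hs p.2
      split_ifs at this ⊢
      · obtain ⟨v, hv⟩ := nonempty_of_encard_ne_zero (by rw [this]; simp : _ ≠ (0 : ℕ∞))
        exact indicator_of_mem (by exact ⟨v, hv⟩) _
      · refine indicator_of_notMem ?_ _
        rintro ⟨v, hv⟩
        exact (encard_eq_zero.1 this).le hv
    simp [this, Fin.card_filter_val_lt, k1]
  have O1 : O ≤ 1 := by
    calc O ≤ ∫⁻ _, 1 ∂P := lintegral_mono_ae (ht.mono fun p hp => by
          exact_mod_cast out_le hp p.2)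
      _ = 1 := by simp
  have Ad : A ≤ d := by
    calc A ≤ ∫⁻ _, d ∂P := lintegral_mono_ae (hd.mono fun p hp => by exact_mod_cast hp)
      _ = d := by simp
  have KA : K ≤ A := lintegral_mono fun p => ENat.toENNReal_le.2
    (encard_le_encard fun u (hu : core p.1 p.2 u) => hu.1)
  have i1 : A ≤ K + O + O := by
    nth_rewrite 2 [io]
    rw [hK, hO, ← lintegral_add_left (mcnt mcore), ← lintegral_add_left ((mcnt mcore).fun_add (mcnt mout))]
    exact lintegral_mono fun p => by
      have := ENat.toENNReal_le.2 (deg1 p.1 p.2)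
      simp only [ENat.toENNReal_add] at this
      exact this
  have i2 : A + d * O ≤ d + O + O := by
    nth_rewrite 3 [io]
    have : (d : ℝ≥0∞) = ∫⁻ _, d ∂P := by simp
    nth_rewrite 2 [this]
    rw [hA, hO, ← lintegral_const_mul _ (mcnt mout), ← lintegral_add_left (mcnt madj),
      ← lintegral_add_left measurable_const,
      ← lintegral_add_left (measurable_const.fun_add (mcnt mout))]
    exact lintegral_mono_ae ((ht.and hd).mono fun p hp => by exact_mod_cast deg2 hp.1 hp.2)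
  have fO : O ≠ ⊤ := ne_top_of_le_ne_top (by simp) O1
  have fA : A ≠ ⊤ := ne_top_of_le_ne_top (by simp) Ad
  have fK : K ≠ ⊤ := ne_top_of_le_ne_top fA KA
  have i3 : d = 2 → O = 0 := by
    rintro rfl
    have ml : MeasurableSet {p : Gr × ℕ | leaf p.1 p.2} :=
      measurableSet_setOfPred.2 (measurable_from_prod_countable_left mleaf)
    have : O + P {p | leaf p.1 p.2} ≤ O + 0 := by
      nth_rewrite 1 [io]
      rw [add_zero, ← lintegral_indicator_one ml,
        ← lintegral_add_right _ (measurable_one.indicator ml)]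
      refine lintegral_mono_ae ((ht.and hd).mono fun p hp => ?_)
      obtain ⟨a, b⟩ := deg3 hp.1 hp.2
      by_cases hl : leaf p.1 p.2
      · rw [indicator_of_mem (by exact hl), Pi.one_apply]; exact_mod_cast b hl
      · rw [indicator_of_notMem (by exact hl), add_zero]; exact_mod_cast a
    have z := everywhere h mleaf (fun σ G a => by simp only [leaf, deg_comap])
      (measure_eq_zero_iff_ae_notMem.1 (nonpos_iff_eq_zero.1
        ((ENNReal.add_le_add_iff_left fO).1 this)))
    rw [hO, lintegral_congr_ae (g := fun _ => 0), lintegral_zero]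
    filter_upwards [ht, z] with p h1 h2
    simp [no_out h1 h2]
  have eA : ∫ p, ((p.1.neighborSet p.2).ncard : ℝ) ∂P = A.toReal := by
    rw [← integral_toReal (mcnt madj).aemeasurable (hd.mono fun p hp => lt_of_le_of_lt
      (by exact_mod_cast hp) (ENNReal.natCast_lt_top d))]
    refine integral_congr_ae (hd.mono fun p hp => ?_)
    have := (finite_of_encard_le_coe hp).cast_ncard_eq
    simp only [SimpleGraph.neighborSet] at this ⊢
    rw [← this]; simp
  have j1 := ENNReal.toReal_mono (by finiteness) i1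
  have j2 := ENNReal.toReal_mono (by finiteness) i2
  have j4 := ENNReal.toReal_mono (by finiteness) Ad
  rw [ENNReal.toReal_add (by finiteness) fO, ENNReal.toReal_add fK fO] at j1
  rw [ENNReal.toReal_add (by finiteness) fO, ENNReal.toReal_add (by finiteness) fO,
    ENNReal.toReal_add fA (by finiteness), ENNReal.toReal_mul] at j2
  rw [measureReal_def, eK, eA, ENNReal.toReal_mul, ENNReal.toReal_inv, ENNReal.toReal_natCast] at *
  have dp : (0 : ℝ) < d := by exact_mod_cast (by omega : 0 < d)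
  rw [← div_eq_inv_mul, le_div_iff₀ dp, sub_mul, mul_assoc, div_mul_cancel₀ _ dp.ne']
  rcases d2.eq_or_lt with e2 | e2
  · rw [i3 e2.symm, ENNReal.toReal_zero] at j1; linarith
  · have : (3 : ℝ) ≤ d := by exact_mod_cast e2
    nlinarith [@ENNReal.toReal_nonneg O]

end Pool.Agent.Results.MP_f65c66_pr.Dense
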